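import Mathlib
import Pool.Agent.Y826.LD.Main

/-!
# Beyond the level one half: moduli with a large rough part and several residue classes

For all squarefree moduli `d ≤ x ^ (43/84 - ε)` the product of whose prime factors `> x ^ η` is at most
`x ^ (1/3 - ε)`, and for all residue classes `l` mod `d` with `d ∣ ∏ (a * l + b)` (a product over a fixed finite
set of linear forms), the primes up to `y ≤ x` are equidistributed on average, with the maximum over the classes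
and over `y` inside the sum, with weights `κ ^ ν(d)` and with an arbitrary power of the logarithm saved. The
exponent `43/84` is larger than `1/2`. The moduli need not be smooth (one prime factor may be as large as
`x ^ (1/3 - ε)`).
-/

set_option autoImplicit false

open Finset

namespace Pool.Agent.Results.MP_00e23e_nt.BeyondOneHalf

/-- the number of primes `p ≤ x` with `p ≡ l (mod d)` -/
noncomputable def primesAP (x : ℝ) (d l : ℕ) : ℕ := Set.ncard {p : ℕ | p.Prime ∧ (p : ℝ) ≤ x ∧ p ≡ l [MOD d]}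

/-- the logarithmic integral from `2` -/
noncomputable def li (x : ℝ) : ℝ := ∫ t in (2 : ℝ)..x, 1 / Real.log t

/-- the error term -/
noncomputable def E (x : ℝ) (d l : ℕ) : ℝ := (primesAP x d l : ℝ) - li x / (Nat.totient d : ℝ)

open Classical in
/-- the product of the prime factors `> z` of `d` -/
noncomputable def rough (z : ℝ) (d : ℕ) : ℕ := ∏ p ∈ d.primeFactors.filter (fun p : ℕ => z < (p : ℝ)), p

theorem primesAP_eq {x : ℝ} (hx : 0 ≤ x) (d l : ℕ) : primesAP x d l = Pool.Agent.Y826.LD.primesAP x d l := by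
  classical
  unfold primesAP Pool.Agent.Y826.LD.primesAP
  have hS : {p : ℕ | p.Prime ∧ (p : ℝ) ≤ x ∧ p ≡ l [MOD d]} =
      (((Icc 1 ⌊x⌋₊).filter (fun p => p.Prime ∧ p ≡ l [MOD d]) : Finset ℕ) : Set ℕ) := by
    ext p
    simp only [Set.mem_ofPred_eq, Finset.coe_filter, Finset.mem_Icc, Nat.le_floor_iff hx]
    constructor
    · rintro ⟨h1, h2, h3⟩
      exact ⟨⟨h1.one_lt.le, h2⟩, h1, h3⟩
    · rintro ⟨⟨_, h2⟩, h1, h3⟩
      exact ⟨h1, h2, h3⟩
  rw [hS, Set.ncard_coe_finset]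

open Classical in
/-- Let `H` be a finite set of linear forms `a * n + b` with coprime coefficients `a, b ≠ 0`, `ε > 0`. There is
`η > 0` such that for all `κ`, `U` there is `C` such that for all `x ≥ 3` and all choices of real numbers `y d`
and residue classes `l d`: the sum of `κ ^ ν(d) * |E(y d; d, l d)|` over all the squarefree
`d ≤ x ^ (43/84 - ε)` the product of whose prime factors `> x ^ η` is at most `x ^ (1/3 - ε)` and for which
`2 ≤ y d ≤ x`, `(l d, d) = 1` and `d ∣ ∏ (a * l d + b)`, is at most `C x / (log x) ^ U`. -/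
theorem result (H : Finset (ℤ × ℤ)) (hH : ∀ h ∈ H, h.1 ≠ 0 ∧ h.2 ≠ 0 ∧ IsCoprime h.1 h.2) (ε : ℝ) (hε : 0 < ε) :
    ∃ η : ℝ, 0 < η ∧ ∀ κ : ℝ, 0 ≤ κ → ∀ U : ℝ, ∃ C : ℝ, ∀ x : ℝ, 3 ≤ x → ∀ (y : ℕ → ℝ) (l : ℕ → ℕ),
      ∑ d ∈ (Icc 1 ⌊x ^ (43 / 84 - ε)⌋₊).filter (fun d => Squarefree d ∧
          (rough (x ^ η) d : ℝ) ≤ x ^ (1 / 3 - ε) ∧ 2 ≤ y d ∧ y d ≤ x ∧ (l d).Coprime d ∧
          (d : ℤ) ∣ ∏ h ∈ H, (h.1 * (l d : ℤ) + h.2)),
        κ ^ d.primeFactors.card * |E (y d) d (l d)| ≤ C * (x / (Real.log x) ^ U) := by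
  obtain ⟨η, hη, h⟩ := Pool.Agent.Y826.LD.s_fin H hH ε hε
  refine ⟨η, hη, fun κ hκ U => ?_⟩
  obtain ⟨C, hC⟩ := h ⌈κ⌉₊ ⌈U⌉₊
  refine ⟨|C|, fun x hx y l => ?_⟩
  have hlog : 1 ≤ Real.log x := by
    have h1 : Real.exp 1 ≤ x := (Real.exp_one_lt_d9.le.trans (by norm_num)).trans hx
    have := Real.log_le_log (Real.exp_pos 1) h1
    rwa [Real.log_exp] at this
  have hx0 : 0 ≤ x := by linarith
  have h2 := hC x hx y l
  have h3 : ∑ d ∈ (Icc 1 ⌊x ^ (43 / 84 - ε)⌋₊).filter (fun d => Squarefree d ∧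
          (rough (x ^ η) d : ℝ) ≤ x ^ (1 / 3 - ε) ∧ 2 ≤ y d ∧ y d ≤ x ∧ (l d).Coprime d ∧
          (d : ℤ) ∣ ∏ h ∈ H, (h.1 * (l d : ℤ) + h.2)),
        κ ^ d.primeFactors.card * |E (y d) d (l d)| ≤
      ∑ d ∈ (Icc 1 ⌊x ^ (43 / 84 - ε)⌋₊).filter (fun d => Squarefree d ∧
          (Pool.Agent.Y826.LD.rough (x ^ η) d : ℝ) ≤ x ^ (1 / 3 - ε) ∧ 2 ≤ y d ∧ y d ≤ x ∧ (l d).Coprime d ∧
          (d : ℤ) ∣ ∏ h ∈ H, (h.1 * (l d : ℤ) + h.2)),
        (⌈κ⌉₊ : ℝ) ^ d.primeFactors.card * |Pool.Agent.Y826.LD.E (y d) d (l d)| := by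
    refine Finset.sum_le_sum fun d hd => ?_
    rw [Finset.mem_filter] at hd
    have hy : 0 ≤ y d := by linarith [hd.2.2.2.1]
    have he : E (y d) d (l d) = Pool.Agent.Y826.LD.E (y d) d (l d) := by
      unfold E Pool.Agent.Y826.LD.E
      rw [primesAP_eq hy]
      rfl
    rw [he]
    exact mul_le_mul_of_nonneg_right (pow_le_pow_left₀ hκ (Nat.le_ceil κ) _) (abs_nonneg _)
  refine h3.trans (h2.trans ?_)
  have h4 : (Real.log x) ^ U ≤ (Real.log x) ^ ⌈U⌉₊ := by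
    rw [← Real.rpow_natCast]
    exact Real.rpow_le_rpow_of_exponent_le hlog (Nat.le_ceil U)
  have h5 : 0 < (Real.log x) ^ U := Real.rpow_pos_of_pos (by linarith) U
  calc C * (x / (Real.log x) ^ ⌈U⌉₊) ≤ |C| * (x / (Real.log x) ^ ⌈U⌉₊) :=
        mul_le_mul_of_nonneg_right (le_abs_self C) (div_nonneg hx0 (by positivity))
    _ ≤ |C| * (x / (Real.log x) ^ U) :=
        mul_le_mul_of_nonneg_left (div_le_div_of_nonneg_left hx0 h5 h4) (abs_nonneg C)

end Pool.Agent.Results.MP_00e23e_nt.BeyondOneHalf
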