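import Pool.Agent.Y856.Hy.Asm3

/-!
A common generalisation of the theorems of Bombieri-Vinogradov (`F = 1`) and
Barban-Davenport-Halberstam (`D = 1`): moduli `d e`, `d ≤ D`, `e ≤ F`, `(d, e) = 1`, with the
maximum over the residue classes modulo `d` inside the sum over `d` and the mean square over `e`
and the residue classes modulo `e`; `D ≤ √x/(log x)^B` and `D F ≤ x/(log x)^B`.
-/

set_option autoImplicit false

namespace Pool.Agent.Results.MP_00e23e_nt.HybridMeanValue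

open Finset

/-- the number `π(x;m,l)` of primes `p ≤ x` with `p ≡ l (mod m)` -/
noncomputable def primesAP (x : ℝ) (m l : ℕ) : ℕ :=
  ((Icc 1 ⌊x⌋₊).filter (fun p => p.Prime ∧ p ≡ l [MOD m])).card

/-- `li x = ∫_2^x dt / log t` -/
noncomputable def li (x : ℝ) : ℝ := ∫ t in (2 : ℝ)..x, 1 / Real.log t

/-- `E(x;m,l) = π(x;m,l) - li x / φ(m)` -/
noncomputable def E (x : ℝ) (m l : ℕ) : ℝ := primesAP x m l - li x / (Nat.totient m : ℝ)

/-- the reduced residues `1 ≤ c ≤ d e` modulo `d e` with `c ≡ a (mod d)` -/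
def above (d e a : ℕ) : Finset ℕ :=
  (Icc 1 (d * e)).filter (fun c => c.Coprime (d * e) ∧ c ≡ a [MOD d])

theorem above_le {d e a : ℕ} (_hd : 1 ≤ d) (he : 1 ≤ e) (hde : e.Coprime d) (x : ℝ)
    (g : ℝ → ℝ) (hg : ∀ t, 0 ≤ g t) :
    ∑ c ∈ above d e a, g (E x (d * e) c) ≤
    ∑ b ∈ (Icc 1 e).filter (fun b => b.Coprime e),
      g ((((Icc 1 ⌊x⌋₊).filter (fun p => p.Prime ∧ p ≡ a [MOD d] ∧ p ≡ b [MOD e])).card : ℝ) -
        Pool.Agent.Y856.Hy.li x / (Nat.totient (d * e) : ℝ)) := by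
  classical
  set β : ℕ → ℕ := fun c => if c % e = 0 then e else c % e with hβ
  have hβ1 : ∀ c, β c ≡ c [MOD e] := by
    intro c
    simp only [hβ]
    split_ifs with h
    · rw [Nat.ModEq, Nat.mod_self, h]
    · exact Nat.mod_modEq c e
  have hβ2 : ∀ c, β c ∈ Icc 1 e := by
    intro c
    simp only [hβ]
    have := Nat.mod_lt c he
    split_ifs with h <;> rw [mem_Icc] <;> omega
  have hval : ∀ c ∈ above d e a, g (E x (d * e) c) =
      g ((((Icc 1 ⌊x⌋₊).filter (fun p => p.Prime ∧ p ≡ a [MOD d] ∧ p ≡ β c [MOD e])).card : ℝ) -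
        Pool.Agent.Y856.Hy.li x / (Nat.totient (d * e) : ℝ)) := by
    intro c hc
    unfold above at hc
    rw [mem_filter] at hc
    have h1 : (Icc 1 ⌊x⌋₊).filter (fun p => p.Prime ∧ p ≡ c [MOD d * e]) =
        (Icc 1 ⌊x⌋₊).filter (fun p => p.Prime ∧ p ≡ a [MOD d] ∧ p ≡ β c [MOD e]) := by
      apply Finset.filter_congr
      intro p _
      rw [← Nat.modEq_and_modEq_iff_modEq_mul hde.symm]
      constructor
      · rintro ⟨h1, h2, h3⟩
        exact ⟨h1, h2.trans hc.2.2, h3.trans (hβ1 c).symm⟩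
      · rintro ⟨h1, h2, h3⟩
        exact ⟨h1, h2.trans hc.2.2.symm, h3.trans (hβ1 c)⟩
    unfold E primesAP
    rw [h1]
    rfl
  rw [Finset.sum_congr rfl hval]
  have hinj : Set.InjOn β (above d e a : Set ℕ) := by
    intro c hc c' hc' h
    rw [mem_coe] at hc hc'
    unfold above at hc hc'
    rw [mem_filter, mem_Icc] at hc hc'
    have h1 : c ≡ c' [MOD e] := (hβ1 c).symm.trans (by rw [h]; exact hβ1 c')
    have h2 : c ≡ c' [MOD d] := hc.2.2.trans hc'.2.2.symm
    have h3 : c ≡ c' [MOD d * e] := (Nat.modEq_and_modEq_iff_modEq_mul hde.symm).1 ⟨h2, h1⟩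
    exact Nat.ModEq.eq_of_abs_lt h3 (by
      rw [abs_lt]
      have hc1 := hc.1
      have hc1' := hc'.1
      constructor <;> push_cast <;> omega)
  have hs : ∑ c ∈ above d e a,
      g ((((Icc 1 ⌊x⌋₊).filter (fun p => p.Prime ∧ p ≡ a [MOD d] ∧ p ≡ β c [MOD e])).card : ℝ) -
        Pool.Agent.Y856.Hy.li x / (Nat.totient (d * e) : ℝ)) =
      ∑ b ∈ (above d e a).image β,
      g ((((Icc 1 ⌊x⌋₊).filter (fun p => p.Prime ∧ p ≡ a [MOD d] ∧ p ≡ b [MOD e])).card : ℝ) -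
        Pool.Agent.Y856.Hy.li x / (Nat.totient (d * e) : ℝ)) := by
    rw [Finset.sum_image hinj]
  rw [hs]
  apply Finset.sum_le_sum_of_subset_of_nonneg
  · intro b hb
    rw [mem_image] at hb
    obtain ⟨c, hc, rfl⟩ := hb
    unfold above at hc
    rw [mem_filter] at hc
    rw [mem_filter]
    refine ⟨hβ2 c, ?_⟩
    have h1 : c.Coprime e := Nat.Coprime.coprime_mul_left_right hc.2.1
    have h2 := (hβ1 c).gcd_eq
    rw [Nat.coprime_iff_gcd_eq_one] at h1 ⊢
    rw [h2, h1]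
  · intro _ _ _; exact hg _

theorem above_card {d e a : ℕ} (_hd : 1 ≤ d) (he : 1 ≤ e) (hde : e.Coprime d) :
    (above d e a).card ≤ e := by
  have h : (above d e a).card ≤ (range e).card := by
    apply Finset.card_le_card_of_injOn (fun c => c % e)
    · intro c _
      rw [mem_coe, mem_range]
      exact Nat.mod_lt c he
    · intro c hc c' hc' h
      rw [mem_coe] at hc hc'
      unfold above at hc hc'
      rw [mem_filter, mem_Icc] at hc hc'
      have h1 : c ≡ c' [MOD e] := h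
      have h2 : c ≡ c' [MOD d] := hc.2.2.trans hc'.2.2.symm
      have h3 : c ≡ c' [MOD d * e] := (Nat.modEq_and_modEq_iff_modEq_mul hde.symm).1 ⟨h2, h1⟩
      exact Nat.ModEq.eq_of_abs_lt h3 (by
        rw [abs_lt]
        have hc1 := hc.1
        have hc1' := hc'.1
        constructor <;> push_cast <;> omega)
  rwa [card_range] at h

theorem mean_square : ∀ A : ℕ, ∃ (B : ℕ) (C : ℝ), 0 < C ∧
      ∀ x : ℝ, 3 ≤ x → ∀ (D F : ℕ), (D : ℝ) ≤ Real.sqrt x / Real.log x ^ B →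
      (D : ℝ) * F ≤ x / Real.log x ^ B →
      ∀ a : ℕ → ℕ, (∀ d, 1 ≤ d → (a d).Coprime d) →
      ∑ d ∈ Icc 1 D, (Nat.totient d : ℝ) * ∑ e ∈ (Icc 1 F).filter (fun e => e.Coprime d),
        ∑ c ∈ above d e (a d), E x (d * e) c ^ 2 ≤ C * (x ^ 2 / Real.log x ^ A) := by
  intro A
  obtain ⟨B, C, hC, h⟩ := Pool.Agent.Y856.Hy.hyb A
  refine ⟨B, C, hC, fun x hx D F hD hDF a ha => le_trans ?_ (h x hx D F hD hDF a ha)⟩
  apply Finset.sum_le_sum
  intro d hd
  rw [mem_Icc] at hd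
  apply mul_le_mul_of_nonneg_left _ (Nat.cast_nonneg _)
  apply Finset.sum_le_sum
  intro e he
  rw [mem_filter, mem_Icc] at he
  exact above_le hd.1 he.1.1 he.2 x (fun t => t ^ 2) (fun t => sq_nonneg t)

theorem result :
    (∀ A : ℕ, ∃ (B : ℕ) (C : ℝ), 0 < C ∧
      ∀ x : ℝ, 3 ≤ x → ∀ (D F : ℕ), (D : ℝ) ≤ Real.sqrt x / Real.log x ^ B →
      (D : ℝ) * F ≤ x / Real.log x ^ B →
      ∀ a : ℕ → ℕ, (∀ d, 1 ≤ d → (a d).Coprime d) →
      ∑ d ∈ Icc 1 D, (Nat.totient d : ℝ) * ∑ e ∈ (Icc 1 F).filter (fun e => e.Coprime d),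
        ∑ c ∈ above d e (a d), E x (d * e) c ^ 2 ≤ C * (x ^ 2 / Real.log x ^ A)) ∧
    (∀ A : ℕ, ∃ (B : ℕ) (C : ℝ), 0 < C ∧
      ∀ x : ℝ, 3 ≤ x → ∀ (D F : ℕ), (D : ℝ) ≤ Real.sqrt x / Real.log x ^ B →
      (D : ℝ) * F ≤ x / Real.log x ^ B →
      ∀ a : ℕ → ℕ, (∀ d, 1 ≤ d → (a d).Coprime d) →
      ∑ d ∈ Icc 1 D, ∑ e ∈ (Icc 1 F).filter (fun e => e.Coprime d),
        ∑ c ∈ above d e (a d), |E x (d * e) c| ≤ C * (F * (x / Real.log x ^ A))) := by
  refine ⟨mean_square, ?_⟩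
  intro A
  obtain ⟨B, C, hC, h⟩ := mean_square (2 * A + 2)
  refine ⟨B, 4 + C, by positivity, ?_⟩
  intro x hx D F hD hDF a ha
  have hm := h x hx D F hD hDF a ha
  set L := Real.log x with hL
  have hx0 : 0 < x := by linarith
  have hL1 : 1 ≤ L := by
    rw [hL, Real.le_log_iff_exp_le hx0]
    have := Real.exp_one_lt_d9
    linarith
  have hL0 : 0 < L := by linarith
  rcases Nat.eq_zero_or_pos F with hF | hF
  · subst hF
    simp
  have hF' : (0 : ℝ) < F := by exact_mod_cast hF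
  have hsq0 : 0 ≤ Real.sqrt x := Real.sqrt_nonneg x
  have hsqx : Real.sqrt x ≤ x := by
    rw [Real.sqrt_le_left hx0.le]
    nlinarith
  have hDx : (D : ℝ) ≤ x := hD.trans ((div_le_self hsq0 (one_le_pow₀ hL1)).trans hsqx)
  -- pointwise: |E| ≤ (t φ(d) E² + 1/(t φ(d)))/2 with t = L^(A+1)... / (F x)
  set t : ℝ := F * L ^ (A + 2) / x with ht
  have ht0 : 0 < t := by positivity
  have hpt : ∀ d ∈ Icc 1 D, ∑ e ∈ (Icc 1 F).filter (fun e => e.Coprime d),
      ∑ c ∈ above d e (a d), |E x (d * e) c| ≤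
      t * ((Nat.totient d : ℝ) * ∑ e ∈ (Icc 1 F).filter (fun e => e.Coprime d),
        ∑ c ∈ above d e (a d), E x (d * e) c ^ 2) +
      (F : ℝ) ^ 2 / t * (1 / (Nat.totient d : ℝ)) := by
    intro d hd
    rw [mem_Icc] at hd
    have hphi : (0 : ℝ) < Nat.totient d := by exact_mod_cast Nat.totient_pos.2 hd.1
    have h1 : ∀ u : ℝ, |u| ≤ t * (Nat.totient d : ℝ) * u ^ 2 + 1 / (t * (Nat.totient d : ℝ)) := by
      intro u
      set s := t * (Nat.totient d : ℝ) with hs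
      have hs0 : 0 < s := by positivity
      have h2 : 0 ≤ (s * |u| - 1) ^ 2 := sq_nonneg _
      have h3 : s * |u| ≤ s * (s * u ^ 2 + 1 / s) := by
        have h4 : s * (s * u ^ 2 + 1 / s) = s ^ 2 * |u| ^ 2 + 1 := by
          rw [sq_abs]; field_simp
        rw [h4]
        nlinarith [abs_nonneg u, sq_nonneg (s * |u|)]
      exact le_of_mul_le_mul_left h3 hs0
    have h2 : ∀ e ∈ (Icc 1 F).filter (fun e => e.Coprime d),
        ∑ c ∈ above d e (a d), |E x (d * e) c| ≤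
        t * (Nat.totient d : ℝ) * ∑ c ∈ above d e (a d), E x (d * e) c ^ 2 +
          F * (1 / (t * (Nat.totient d : ℝ))) := by
      intro e he
      rw [mem_filter, mem_Icc] at he
      have h3 := Finset.sum_le_sum (fun c (_ : c ∈ above d e (a d)) => h1 (E x (d * e) c))
      rw [sum_add_distrib, ← mul_sum, sum_const, nsmul_eq_mul] at h3
      have h4 : ((above d e (a d)).card : ℝ) ≤ F := by
        exact_mod_cast (above_card hd.1 he.1.1 he.2).trans he.1.2
      have h5 := mul_le_mul_of_nonneg_right h4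
        (show 0 ≤ 1 / (t * (Nat.totient d : ℝ)) by positivity)
      linarith
    have h3 := Finset.sum_le_sum h2
    rw [sum_add_distrib, ← mul_sum, sum_const, nsmul_eq_mul] at h3
    have h4 : (((Icc 1 F).filter (fun e => e.Coprime d)).card : ℝ) ≤ F := by
      have : ((Icc 1 F).filter (fun e => e.Coprime d)).card ≤ F := by
        refine (card_filter_le _ _).trans ?_
        rw [Nat.card_Icc]; omega
      exact_mod_cast this
    have h5 := mul_le_mul_of_nonneg_right h4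
      (show 0 ≤ F * (1 / (t * (Nat.totient d : ℝ))) by positivity)
    have h6 : (F : ℝ) * (F * (1 / (t * (Nat.totient d : ℝ)))) =
        (F : ℝ) ^ 2 / t * (1 / (Nat.totient d : ℝ)) := by
      field_simp
    rw [h6] at h5
    have h7 : t * (Nat.totient d : ℝ) * ∑ e ∈ (Icc 1 F).filter (fun e => e.Coprime d),
        ∑ c ∈ above d e (a d), E x (d * e) c ^ 2 =
        t * ((Nat.totient d : ℝ) * ∑ e ∈ (Icc 1 F).filter (fun e => e.Coprime d),
        ∑ c ∈ above d e (a d), E x (d * e) c ^ 2) := by ring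
    linarith
  have hsum := Finset.sum_le_sum hpt
  rw [sum_add_distrib, ← mul_sum, ← mul_sum] at hsum
  have hH : ∑ d ∈ Icc 1 D, 1 / (Nat.totient d : ℝ) ≤ 4 * L ^ 2 := by
    refine (Pool.Agent.H441R3.BV.sum_inv_tot D).trans ?_
    have h0 : 0 ≤ Real.log D := Real.log_natCast_nonneg D
    have h1 : Real.log D ≤ L := by
      rcases Nat.eq_zero_or_pos D with h | h
      · rw [h]; simp; exact hL0.le
      · exact Real.log_le_log (by exact_mod_cast h) hDx
    nlinarith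
  have h1 := mul_le_mul_of_nonneg_left hm ht0.le
  have h2 := mul_le_mul_of_nonneg_left hH (show 0 ≤ (F : ℝ) ^ 2 / t by positivity)
  have h3 : t * (C * (x ^ 2 / L ^ (2 * A + 2))) = C * (F * (x / L ^ A)) := by
    rw [ht, show 2 * A + 2 = A + (A + 2) by ring, pow_add L A (A + 2)]
    field_simp
  have h4 : (F : ℝ) ^ 2 / t * (4 * L ^ 2) = 4 * (F * (x / L ^ A)) := by
    rw [ht, pow_add L A 2]
    field_simp
  rw [h3] at h1
  rw [h4] at h2
  calc _ ≤ C * (F * (x / L ^ A)) + 4 * (F * (x / L ^ A)) := hsum.trans (add_le_add h1 h2)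
    _ = _ := by ring

end Pool.Agent.Results.MP_00e23e_nt.HybridMeanValue
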