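import Pool.Agent.Y866.PP.MaxIn
import Pool.Agent.Y677.RSZ.Top

/-!
# Progressions of primes in all but few residue classes, to all moduli up to `x ^ (1 - ε)`

The mean square of the large conductor part of the primes (starting files, `Pool.Agent.TH926.EH`) and
Szemerédi's theorem relative to sifted sets (`Pool.Agent.Y677.RSZ.eng_all`, of the team), applied in every
residue class. From Mathlib: `Nat.totient`: Euler's function; `[MOD d]`: congruence modulo `d`.
-/

set_option autoImplicit false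

namespace Pool.Agent.Results.MP_00e23e_nt.ProgressionsMaxInside

open Finset

/-- The class `a` modulo `d` contains a progression of `k` primes `p, p + d r, ..., p + (k - 1) d r`, all
of them at most `x`, with `1 ≤ r ≤ (log x) ^ B`. -/
def HasProgression (k B x d a : ℕ) : Prop := ∃ p r : ℕ, 1 ≤ r ∧ (r : ℝ) ≤ Real.log x ^ B ∧
  ∀ j < k, (p + j * (d * r)).Prime ∧ p + j * (d * r) ≡ a [MOD d] ∧ p + j * (d * r) ≤ x

open Classical in
/-- For all `k`, `U` and `ε > 0` there are `B` and `C` such that for every `x ≥ 3` there are sets `X_d` of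
residues with the following properties.

* `X_d` is empty if `d ≤ √x / (log x) ^ B`, and `∑_{d ≤ D} |X_d| ≤ C D ^ 3 (log x) ^ B / x` for every `D`;
* for all `d ≤ x ^ (1 - ε)` outside a set of moduli with `∑ 1 / φ(d) ≤ C / (log x) ^ U`, EVERY residue
  `0 ≤ a < d` prime to `d` which is not in `X_d` is such that the class `a` modulo `d` contains a
  progression of `k` primes up to `x` with a difference at most `d (log x) ^ B`. -/
theorem result (k U : ℕ) (ε : ℝ) (hε : 0 < ε) : ∃ (B : ℕ) (C : ℝ),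
    ∀ x : ℕ, 3 ≤ x → ∃ X : ℕ → Finset ℕ,
      (∀ d : ℕ, (d : ℝ) * Real.log x ^ B ≤ Real.sqrt x → X d = ∅) ∧
      (∀ D : ℕ, ∑ d ∈ Icc 1 D, ((X d).card : ℝ) ≤ C * ((D : ℝ) ^ 3 * Real.log x ^ B / x)) ∧
      ∑ d ∈ (Icc 1 ⌊(x : ℝ) ^ (1 - ε)⌋₊).filter
        (fun d => ∃ a < d, a.Coprime d ∧ a ∉ X d ∧ ¬ HasProgression k B x d a),
          1 / (Nat.totient d : ℝ) ≤ C / Real.log x ^ U := by
  obtain ⟨B, C, h⟩ := Pool.Agent.Y866.PP.max_inside
    (Pool.Agent.Y866.PP.prog_of_eng Pool.Agent.Y677.RSZ.eng_all) k ε hε U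
  refine ⟨B, C, fun x hx => ?_⟩
  obtain ⟨X, h1, h2, h3⟩ := h x hx
  refine ⟨X, h1, h2, le_trans (le_of_eq (sum_congr ?_ fun _ _ => rfl)) h3⟩
  ext d
  rw [mem_filter, mem_filter]
  rfl

end Pool.Agent.Results.MP_00e23e_nt.ProgressionsMaxInside
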