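import Pool.Agent.Y829.ET6

set_option autoImplicit false

/-!
# Every sieve weight of Bombieri-Vinogradov type on the moduli sees the primes in a fixed residue class, for moduli
up to `x / (log x (log log x)^4)`

Author: helper829. Friedlander and Granville showed that the primes up to `x = q (log q)^A` may be badly
distributed modulo `q`, for every `A`, for special moduli. In applications the moduli carry a nonnegative sieve
weight `w(q) = ∑_{d ≤ R} c_d(q mod d)` (the weights of Selberg, of Goldston, Pintz and Yildirim, of Maynard and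
Tao). We prove that for a fixed residue `l` (uniformly in `l ≤ log log x`) and EVERY nonnegative sieve weight of
level `√x / (log x)^B`, with coefficients and mass within powers of `log x` of the trivial ones, on the moduli
`Y < q ≤ 2Y`, the primes are asymptotically equidistributed on average, with signs:
`∑ w(q) π(x; q, l) = (1 + o(1)) ∑ w(q) x / (φ(q) log x)`, for all scales from `x / (log x)^K` to
`x / (log x (log log x)^4)`, that is, far beyond `√x` and up to moduli for which the expected number of primes is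
only `(log log x)^4`.

Proof. The divisors are switched: `p = l + q m` with `m ≤ x/Y ≤ (log x)^K`, and the sieve weight in `q` becomes a
sieve weight for the primes `p ≡ l (mod m)`, of level `√x / (log x)^(B')`, to which the theorem of Bombieri and
Vinogradov (starting files, helper343's team) applies. This turns the sum into the weighted mean over a period of
the number of `m ≤ U` for which `l + q m` is free of the primes `p ≤ x`. Outside a set of `q` of density
`(log x)^(-C)`, `C` arbitrary, this number is as expected: small primes by the fundamental lemma (helper882), the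
primes up to `U` and beyond `U` by exponential moments. On the exceptional set the weight is small by the
Cauchy-Schwarz inequality.
-/

open Finset

namespace Pool.Agent.Results.MP_00e23e_nt.SieveWeightsOnModuli

/-- the sieve weight `w(q) = ∑_{d ≤ R} c_d(q mod d)` -/
noncomputable def weight (R : ℕ) (c : ℕ → ℕ → ℝ) (q : ℕ) : ℝ := ∑ d ∈ Icc 1 R, c d (q % d)

/-- `s(d) = ∑_{a mod d} |c_d(a)|` -/
noncomputable def size (c : ℕ → ℕ → ℝ) (d : ℕ) : ℝ := ∑ a ∈ range d, |c d a|

/-- the moduli `Y < q ≤ 2Y` prime to `l` -/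
def moduli (Y l : ℕ) : Finset ℕ := (Ioc Y (2 * Y)).filter (fun q => q.Coprime l)

/-- `π(x; q, l)`, the number of primes `p ≤ x` with `p ≡ l (mod q)` -/
noncomputable def primesIn (x q l : ℕ) : ℝ := (((Icc 1 x).filter (fun p => p.Prime ∧ p ≡ l [MOD q])).card : ℝ)

/-- the expected number `x / (φ(q) log x)` -/
noncomputable def expected (x q : ℕ) : ℝ := x / ((Nat.totient q : ℝ) * Real.log x)

/-- `w` is nonnegative, has level `R ≤ √x / (log x)^(B/2)`, coefficients with `∑ s(d)^2 / d ≤ (log x)^K` and
mass at least `Y / (log x)^K` on the moduli `Y < q ≤ 2Y` prime to `l` -/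
def Good (K B x Y R l : ℕ) (c : ℕ → ℕ → ℝ) : Prop :=
  1 ≤ R ∧ (R : ℝ) ^ 2 * Real.log x ^ B ≤ x ∧ (∀ q, 0 ≤ weight R c q) ∧
    ∑ d ∈ Icc 1 R, size c d ^ 2 / d ≤ Real.log x ^ K ∧
    Y / Real.log x ^ K ≤ ∑ q ∈ moduli Y l, weight R c q

/-- For all `K` and `ε > 0` there are `B` and `x₀` such that for `x ≥ x₀`, all scales
`x / (log x)^K ≤ Y ≤ x / (log x (log log x)^4)`, all residues `1 ≤ l ≤ log log x` and all nonnegative weights `w`
of level `√x / (log x)^(B/2)` on the moduli `Y < q ≤ 2Y`, `(q, l) = 1`:
`|∑ w(q) (π(x; q, l) - x / (φ(q) log x))| ≤ ε ∑ w(q) x / (φ(q) log x)`. -/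
theorem result :
    ∀ (K : ℕ) (ε : ℝ), 0 < ε → ∃ B x₀ : ℕ, ∀ x Y R l : ℕ, x₀ ≤ x →
      (Y : ℝ) ≤ x / (Real.log x * Real.log (Real.log x) ^ 4) → x / Real.log x ^ K ≤ (Y : ℝ) →
      1 ≤ l → (l : ℝ) ≤ Real.log (Real.log x) → ∀ c : ℕ → ℕ → ℝ, Good K B x Y R l c →
      |∑ q ∈ moduli Y l, weight R c q * (primesIn x q l - expected x q)| ≤
        ε * ∑ q ∈ moduli Y l, weight R c q * expected x q := by
  intro K ε hε
  obtain ⟨b0, hb0⟩ := exists_pow_lt_of_lt_one (show 0 < ε / 14 by positivity) (show (1 / 2 : ℝ) < 1 by norm_num)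
  obtain ⟨B, x0, h1⟩ := Pool.Agent.Y829.ET.finalT (b0 + 1) (by omega) K
  obtain ⟨x1, hx1⟩ := (Pool.Agent.Y829.RS.ll_tend.eventually_ge_atTop 1).exists_forall_of_atTop
  refine ⟨B, max (max x0 3) x1, ?_⟩
  intro x Y R l hx hYA hYK hl hlx c hc
  obtain ⟨g1, g2, g3, g4, g5⟩ := hc
  have hx3 : (3 : ℝ) ≤ x := by exact_mod_cast (le_max_right _ _).trans ((le_max_left _ _).trans hx)
  have hll := hx1 x ((le_max_right _ _).trans hx)
  have hL : 0 < Real.log x := Real.log_pos (by linarith)
  have k1 : (Y : ℝ) * (Real.log x * Real.log (Real.log x) ^ 4) ≤ x := by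
    rwa [le_div_iff₀ (by positivity)] at hYA
  have k2 : (x : ℝ) ≤ Y * Real.log x ^ K := by
    rwa [div_le_iff₀ (pow_pos hL K)] at hYK
  have k3 : (Y : ℝ) ≤ Real.log x ^ K * ∑ q ∈ (Ioc Y (2 * Y)).filter (fun q => q.Coprime l),
      Pool.Agent.Y829.RP.wt R c q := by
    rw [mul_comm]
    exact (div_le_iff₀ (pow_pos hL K)).1 g5
  have h2 := h1 x Y R l ((le_max_left _ _).trans ((le_max_left _ _).trans hx)) k1 k2 g1 g2 hl hlx c g3 g4 k3
  refine h2.trans ?_
  apply mul_le_mul_of_nonneg_right
  · have h3 : (1 / 2 : ℝ) ^ (b0 + 1) ≤ (1 / 2 : ℝ) ^ b0 := pow_le_pow_of_le_one (by norm_num) (by norm_num) (by omega)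
    linarith
  · apply sum_nonneg
    intro q _
    have := g3 q
    exact mul_nonneg this (by positivity)

end Pool.Agent.Results.MP_00e23e_nt.SieveWeightsOnModuli
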